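import Pool.Agent.Lib.HYP.Def2
import Pool.Agent.Lib.HYP.Ifc

/-!
Positive proportion of all odd hyperelliptic curves of genus `g` (elliptic curves for `g = 1`) with
trivial `2`-Selmer group over ANY global function field `K`. Definitions.

`Place k K`: a closed point of the curve `X` with function field `K`. A structure `Geo k K` is a
covering of `X` by two affine pieces: `A` (Dedekind domain, the functions regular outside the
poles of `t`) and the semilocal ring `B` of the poles of `t`, `d` the degree of `t`.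
-/

set_option autoImplicit false

open Polynomial

namespace Pool.Agent.GBC

open Pool.Agent.BSDP Pool.Agent.BSDFF Pool.Agent.HYP

/-! ### The final statement: curves, heights, Selmer groups over a function field `K` -/

section final

variable {k K : Type} [Field k] [Field K] [Algebra k K]

/-- The model `y ^ 2 = f (x)`: `f` monic, separable, of degree `2 g + 1`, no term of degree `2 g`. -/
structure Model (g : ℕ) (f : K[X]) : Prop where
  monic : f.Monic
  deg : f.natDegree = 2 * g + 1
  tr : f.coeff (2 * g) = 0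
  sep : f.Separable

/-- `a` has at the closed point `v` a pole of order at most `n`. -/
def PoleLE (v : Place k K) (n : ℤ) (a : K) : Prop :=
  ∀ ϖ : v.ring, Irreducible ϖ → a * (ϖ : K) ^ n ∈ v.ring

/-- There is a divisor `D` of degree at most `M` such that the coefficient `a_i` of `x ^ (n - i)` of
`f`, `n = 2 g + 1`, is a section of `O (2 i D)` for all `i`. -/
def HeightLE (k : Type) {K : Type} [Field k] [Field K] [Algebra k K] (g M : ℕ) (f : K[X]) : Prop :=
  ∃ D : Place k K →₀ ℤ, (∀ v : Place k K, ∀ i ≤ 2 * g + 1,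
      PoleLE v (2 * i * D v) (f.coeff (2 * g + 1 - i))) ∧
    D.sum (fun v n => (v.degree : ℤ) * n) ≤ M

/-- The `2`-Selmer group of the Jacobian of `y ^ 2 = f (x)` over `K` is trivial. -/
def SelTriv (k : Type) {K : Type} [Field k] [Field K] [Algebra k K] (g : ℕ) (f : K[X]) : Prop :=
  ∀ c : AdjoinRoot f, SqNorm c →
    (∀ w : Place k K, Image (f.map w.toCompletion) g (bc w.toCompletion f c)) → IsSquare c

/-- `f` and `f'` define isomorphic pointed curves: `a_i' = u ^ (2 i) a_i`. -/
def isoRel (K : Type) [Field K] : Setoid K[X] where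
  r f f' := ∃ u : K, u ≠ 0 ∧ f' = f.scaleRoots (u ^ 2)
  iseqv := by
    refine ⟨fun f => ⟨1, one_ne_zero, ?_⟩, fun {f f'} => ?_, fun {f f' f''} => ?_⟩
    · ext i
      simp
    · rintro ⟨u, hu, rfl⟩
      refine ⟨u⁻¹, inv_ne_zero hu, ?_⟩
      ext i
      rw [coeff_scaleRoots, coeff_scaleRoots, natDegree_scaleRoots, mul_assoc, ← mul_pow, ← mul_pow,
        mul_inv_cancel₀ hu]
      simp
    · rintro ⟨u, hu, rfl⟩ ⟨v, hv, rfl⟩
      refine ⟨u * v, mul_ne_zero hu hv, ?_⟩
      ext i
      rw [coeff_scaleRoots, coeff_scaleRoots, coeff_scaleRoots, natDegree_scaleRoots]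
      ring

/-- The isomorphism classes of the models `f` of genus `g` and height at most `M` with the property
`P`. -/
def Classes (k : Type) {K : Type} [Field k] [Field K] [Algebra k K] (g M : ℕ) (P : K[X] → Prop) :
    Set (Quotient (isoRel K)) :=
  {C | ∃ f : K[X], Quotient.mk (isoRel K) f = C ∧ Model g f ∧ HeightLE k g M f ∧ P f}

end final

/-! ### The geometry -/

/-- Two affine pieces of the curve with function field `K`. -/
structure Geo (k K : Type) [Field k] [Field K] [Algebra k K] where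
  /-- the functions regular outside of the poles of `t` -/
  A : Subalgebra k K
  /-- the functions regular at the poles of `t` -/
  B : Subalgebra k K
  t : K
  /-- the degree of `t` -/
  d : ℕ
  d_pos : 0 < d
  t_mem : t ∈ A
  inv_mem : t⁻¹ ∈ B
  t_ne : t ≠ 0
  dedA : IsDedekindDomain A
  fracA : IsFractionRing A K
  pidB : IsPrincipalIdealRing B
  /-- `t⁻¹` is in all maximal ideals of `B` -/
  rad : ∀ m : Ideal B, m.IsMaximal → (⟨t⁻¹, inv_mem⟩ : B) ∈ m
  /-- the union of the `t ^ y B` is `K` -/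
  exh : ∀ x : K, ∃ n : ℕ, t⁻¹ ^ n * x ∈ B
  /-- `dim B / (t⁻¹) = d` -/
  fin_quot : Module.Finite k (B ⧸ Ideal.span {(⟨t⁻¹, inv_mem⟩ : B)})
  dim_quot : Module.finrank k (B ⧸ Ideal.span {(⟨t⁻¹, inv_mem⟩ : B)}) = d
  /-- `A ∩ t⁻¹ B = 0` -/
  inter : ∀ x ∈ A, t * x ∈ B → x = 0
  fin_inf : Module.Finite k (A.toSubmodule ⊓ B.toSubmodule : Submodule k K)
  fin_sup : Module.Finite k (K ⧸ (A.toSubmodule ⊔ B.toSubmodule))
  /-- every closed point is in one of the pieces -/
  places : ∀ w : Place k K, (∀ a ∈ A, a ∈ w.ring) ∨ (∀ b ∈ B, b ∈ w.ring)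
  /-- a derivation of `K` which preserves `A`; its kernel consists of `p`-th powers -/
  deriv : ∃ (D : Derivation k K K) (c : ℕ), (∀ a ∈ A, D a ∈ A) ∧
    (∀ (y : ℤ) (x : K), t ^ (-y) * x ∈ B → t ^ (-(y + c)) * D x ∈ B) ∧
    ∀ x : K, D x = 0 → ∃ y : K, x = y ^ ringChar k

namespace Geo

variable {k K : Type} [Field k] [Field K] [Algebra k K] (G : Geo k K)

instance : IsDedekindDomain G.A := G.dedA
instance : IsFractionRing G.A K := G.fracA
instance : IsPrincipalIdealRing G.B := G.pidB

/-- `t⁻¹` as an element of `B` -/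
def ti : G.B := ⟨G.t⁻¹, G.inv_mem⟩

/-- `t ^ y B` -/
def M (y : ℤ) : Submodule k K where
  carrier := {x | G.t ^ (-y) * x ∈ G.B}
  add_mem' {a b} ha hb := by
    change G.t ^ (-y) * (a + b) ∈ G.B
    rw [mul_add]
    exact add_mem ha hb
  zero_mem' := by
    change G.t ^ (-y) * 0 ∈ G.B
    rw [mul_zero]
    exact zero_mem _
  smul_mem' c x hx := by
    change G.t ^ (-y) * (c • x) ∈ G.B
    rw [mul_smul_comm]
    exact G.B.smul_mem hx c

/-- `A ∩ t ^ y B` -/
def L (y : ℤ) : Submodule k K := G.A.toSubmodule ⊓ G.M y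

/-- The finite places: the closed points of the piece `A`. -/
def FP : Type := {w : Place k K // ∀ a ∈ G.A, a ∈ w.ring}

/-- The residue field at a finite place. -/
abbrev κ (w : G.FP) : Type := IsLocalRing.ResidueField w.1.ring

/-- `A → κ (w)` -/
noncomputable def res (w : G.FP) : G.A →+* G.κ w :=
  (IsLocalRing.residue w.1.ring).comp
    ((algebraMap G.A K).codRestrict w.1.ring.toSubring (fun a => w.2 a a.2))

/-- The prime ideal of a finite place. -/
noncomputable def prime (w : G.FP) : Ideal G.A := RingHom.ker (G.res w)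

/-- `f` with coefficients in `K`. -/
noncomputable abbrev fK (f : G.A[X]) : K[X] := f.map (algebraMap G.A K)

end Geo

/-- The completion at a closed point as a local field. -/
structure LocK {k K : Type} [Field k] [Field K] [Algebra k K] (w : Place k K) extends
    Loc (w.ring.valuation.Completion) where
  mem_iff : ∀ a : K, w.toCompletion a ∈ O ↔ a ∈ w.ring
  lt_iff : ∀ a : K, O.valuation (w.toCompletion a) < 1 ↔ w.ring.valuation a < 1
  dense : ∀ x c : w.ring.valuation.Completion, c ≠ 0 →
    ∃ a : K, O.valuation (x - w.toCompletion a) < O.valuation c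

/-! ### The family -/

/-- `f` is not in the square of an ideal `(P, p)` of `A[x]`, `p` monic of positive degree. -/
def RegI {R : Type} [CommRing R] (P : Ideal R) (f : R[X]) : Prop :=
  ∀ p : R[X], p.Monic → 1 ≤ p.natDegree → f ∉ (P.map (C : R →+* R[X]) ⊔ Ideal.span {p}) ^ 2

section family

variable {k K : Type} [Field k] [Field K] [Algebra k K]

/-- The local conditions of the family: the leading form at infinity and the class modulo an ideal
`N` (a product of different prime ideals). -/
structure Data (G : Geo k K) (g : ℕ) where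
  /-- the leading form -/
  φ : G.B[X]
  monic : φ.Monic
  deg : φ.natDegree = 2 * g + 1
  tr : φ.coeff (2 * g) = 0
  irr : ∀ m : Ideal G.B, m.IsMaximal → Irreducible (φ.map (Ideal.Quotient.mk m))
  /-- the conductor -/
  N : Ideal G.A
  N_ne : N ≠ ⊥
  rad : N.IsRadical
  /-- the class modulo the conductor -/
  f₀ : G.A[X]
  monic₀ : f₀.Monic
  deg₀ : f₀.natDegree = 2 * g + 1
  tr₀ : f₀.coeff (2 * g) = 0
  irr₀ : ∀ P : Ideal G.A, P.IsMaximal → N ≤ P → Irreducible (f₀.map (Ideal.Quotient.mk P))

/-- The family without the condition of regularity. -/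
structure Fam₀ {G : Geo k K} {g : ℕ} (D : Data G g) (m : ℕ) (f : G.A[X]) : Prop where
  monic : f.Monic
  deg : f.natDegree = 2 * g + 1
  tr : f.coeff (2 * g) = 0
  lead : ∀ j ≤ 2 * g + 1, (f.coeff j : K) - G.t ^ (2 * m * (2 * g + 1 - j)) * (D.φ.coeff j : K) ∈
    G.M (2 * m * (2 * g + 1 - j : ℕ) - 1)
  cong : ∀ j, f.coeff j - D.f₀.coeff j ∈ D.N

/-- The family. -/
structure Fam {G : Geo k K} {g : ℕ} (D : Data G g) (m : ℕ) (f : G.A[X]) : Prop extends
    Fam₀ D m f where
  reg : ∀ P : Ideal G.A, P.IsMaximal → RegI P f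

/-- `c` has square norm and is a unit up to squares at all finite places. -/
def InU (G : Geo k K) {f : G.A[X]} (c : AdjoinRoot (G.fK f)) : Prop :=
  SqNorm c ∧ ∀ w : G.FP, ∀ L : LocK w.1, UnitAt L.toLoc (bc w.1.toCompletion (G.fK f) c)

/-- `c` is detected at `w`. -/
def DetG (G : Geo k K) (g : ℕ) {f : G.A[X]} (hf : (G.fK f).Monic) (w : G.FP)
    (c : AdjoinRoot (G.fK f)) : Prop :=
  ∃ (b : Fin (2 * g + 1) → AdjoinRoot (G.fK f))
    (G1 G2 : Matrix (Fin (2 * g + 1)) (Fin (2 * g + 1)) G.A),
    gram1 hf c b = G1.map (algebraMap G.A K) ∧ gram2 hf c b = G2.map (algebraMap G.A K) ∧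
      (G1.map (G.res w)).det ≠ 0 ∧ Det (G1.map (G.res w)) (G2.map (G.res w))

/-- Every nontrivial class of `U (f)` is detected at a place of `V`. -/
def AllDet (G : Geo k K) (g : ℕ) (V : Finset G.FP) (f : G.A[X]) : Prop :=
  ∀ (hf : (G.fK f).Monic) (c : AdjoinRoot (G.fK f)), InU G c → ¬ IsSquare c →
    ∃ w ∈ V, DetG G g hf w c

/-- `D` has order one at the places of `V`, order zero at the other finite places which do not
divide `N`. -/
structure Twister (G : Geo k K) (N : Ideal G.A) (V : Finset G.FP) (D : G.A) : Prop where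
  ne : D ≠ 0
  one : ∀ w ∈ V, ∃ ϖ : w.1.ring, Irreducible ϖ ∧ w.1.ring.valuation (D : K) = w.1.ring.valuation ϖ
  zero : ∀ w : G.FP, w ∉ V → ¬ N ≤ G.prime w → w.1.ring.valuation (D : K) = 1

/-! ### Types of reduced bases, the pairs of matrices -/

/-- A pair of symmetric matrices over `A` with the sizes of a reduced basis of type `r`, up to the
constant `C`. -/
structure DegP (G : Geo k K) (g m C : ℕ) (r : ℕ → ℕ)
    (G1 G2 : Matrix (Fin (2 * g + 1)) (Fin (2 * g + 1)) G.A) : Prop where
  s1 : G1.transpose = G1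
  s2 : G2.transpose = G2
  d1 : ∀ i j, (G1 i j : K) ∈ G.M (nn g r i + nn g r j + C)
  d2 : ∀ i j, (G2 i j : K) ∈ G.M (2 * m + nn g r i + nn g r j + C)
  det : ∃ u : G.A, u ≠ 0 ∧ (-1) ^ g * G1.det = u ^ 2
  detC : (G1.det : K) ∈ G.M C

/-- `f` is represented by a pair of type `r` which is not detected at any place of `V`. -/
def RepV (G : Geo k K) (g m C : ℕ) (V : Finset G.FP) (r : ℕ → ℕ) (f : G.A[X]) : Prop :=
  ∃ G1 G2 : Matrix (Fin (2 * g + 1)) (Fin (2 * g + 1)) G.A, DegP G g m C r G1 G2 ∧
    (Matrix.scalar (Fin (2 * g + 1)) (X : G.A[X]) * G1.map Polynomial.C - G2.map Polynomial.C).det =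
      Polynomial.C G1.det * f ∧
    ∀ w ∈ V, (G1.map (G.res w)).det ≠ 0 ∧ ¬ Det (G1.map (G.res w)) (G2.map (G.res w))

end family

end Pool.Agent.GBC
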