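import Pool.Agent.Lib.GBC.PDef
import Pool.Agent.Lib.MP_48b749_nt.Infty

/-!
Block E (existence of the geometry for a finite separable extension `K` of `k(t)`): definitions.
-/

set_option autoImplicit false

open Polynomial

namespace Pool.Agent.GBC

open Pool.Agent.BSDP Pool.Agent.BSDFF Pool.Agent.HYP

variable (k K : Type) [Field k] [Field K] [Algebra k K] [Algebra (RatFunc k) K]
  [IsScalarTower k (RatFunc k) K]

/-- `t` in `K` -/
noncomputable def tK : K := algebraMap (RatFunc k) K RatFunc.X

/-- `k[t] → K` -/
noncomputable def cX : k[X] →+* K :=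
  (algebraMap (RatFunc k) K).comp (algebraMap k[X] (RatFunc k))

/-- `O_∞ → K`, `O_∞` the valuation ring of `k(t)` at infinity -/
noncomputable def cO : (placeInfty k).ring →+* K :=
  (algebraMap (RatFunc k) K).comp (placeInfty k).ring.subtype

/-- The integral closure of `k[t]` in `K`. -/
noncomputable def RA : Subalgebra k K where
  carrier := {x | (cX k K).IsIntegralElem x}
  mul_mem' {a b} ha hb := RingHom.IsIntegralElem.mul _ ha hb
  add_mem' {a b} ha hb := RingHom.IsIntegralElem.add _ ha hb
  algebraMap_mem' c := by
    change (cX k K).IsIntegralElem (algebraMap k K c)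
    have h : algebraMap k K c = cX k K (C c) := by
      rw [cX, RingHom.comp_apply, IsScalarTower.algebraMap_apply k (RatFunc k) K]
      congr 1
    rw [h]
    exact RingHom.isIntegralElem_map _

/-- The integral closure of `O_∞` in `K`. -/
noncomputable def RB : Subalgebra k K where
  carrier := {x | (cO k K).IsIntegralElem x}
  mul_mem' {a b} ha hb := RingHom.IsIntegralElem.mul _ ha hb
  add_mem' {a b} ha hb := RingHom.IsIntegralElem.add _ ha hb
  algebraMap_mem' c := by
    change (cO k K).IsIntegralElem (algebraMap k K c)
    have h : algebraMap k K c =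
        cO k K ⟨algebraMap k (RatFunc k) c, (placeInfty k).const_mem c⟩ := by
      rw [cO, RingHom.comp_apply, IsScalarTower.algebraMap_apply k (RatFunc k) K]
      rfl
    rw [h]
    exact RingHom.isIntegralElem_map _

end Pool.Agent.GBC
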