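import Pool.Agent.Lib.GBC.Def

/-!
Block P (places): definitions. The order at a place, the centre of a place on a Dedekind domain,
divisors.
-/

set_option autoImplicit false

open Polynomial

namespace Pool.Agent.GBC

open Pool.Agent.BSDP Pool.Agent.BSDFF Pool.Agent.HYP

variable {k K : Type} [Field k] [Field K] [Algebra k K]

/-- A uniformizer. -/
noncomputable def unif (w : Place k K) : w.ring :=
  (IsDiscreteValuationRing.exists_irreducible w.ring).choose

/-- The order at a place (`0` at `0`). -/
noncomputable def ord (w : Place k K) (x : K) : ℤ :=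
  open Classical in
  if h : x ≠ 0 ∧ ∃ n : ℤ, w.ring.valuation x = w.ring.valuation (unif w : K) ^ n then h.2.choose
  else 0

/-- `R` is in the valuation ring of `w`. -/
def Over (R : Subalgebra k K) (w : Place k K) : Prop := ∀ a ∈ R, a ∈ w.ring

/-- `R → w.ring` -/
noncomputable def toRing (R : Subalgebra k K) (w : Place k K) (hw : Over R w) : R →+* w.ring :=
  (algebraMap R K).codRestrict w.ring.toSubring (fun a => hw a a.2)

/-- `R →` residue field -/
noncomputable def toRes (R : Subalgebra k K) (w : Place k K) (hw : Over R w) :
    R →+* IsLocalRing.ResidueField w.ring :=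
  (IsLocalRing.residue w.ring).comp (toRing R w hw)

/-- The centre of `w` on `R`. -/
noncomputable def cen (R : Subalgebra k K) (w : Place k K) (hw : Over R w) : Ideal R :=
  RingHom.ker (toRes R w hw)

/-- The functions `u` with `ord w u ≥ D w` at all places `w` over `R`. -/
def RR (R : Subalgebra k K) (D : Place k K →₀ ℤ) : Set K :=
  {u | ∀ w : Place k K, Over R w → u = 0 ∨ D w ≤ ord w u}

/-- The degree of the part of `D` over `R`. -/
noncomputable def degOver (R : Subalgebra k K) (D : Place k K →₀ ℤ) : ℤ :=
  open Classical in D.sum (fun w n => if Over R w then (w.degree : ℤ) * n else 0)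

/-- The degree of `D`. -/
noncomputable def degD (D : Place k K →₀ ℤ) : ℤ := D.sum (fun w n => (w.degree : ℤ) * n)

end Pool.Agent.GBC
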