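import Pool.Agent.Lib.GBC.Def

/-!
Block Q (counting in `A`): definitions.
-/

set_option autoImplicit false

open Polynomial

namespace Pool.Agent.GBC

open Pool.Agent.BSDP Pool.Agent.BSDFF Pool.Agent.HYP

namespace Geo

variable {k K : Type} [Field k] [Field K] [Algebra k K] (G : Geo k K)

/-- `I ∩ t ^ y B` for an ideal `I` of `A`, as a subspace of `A`. -/
def IL (I : Ideal G.A) (y : ℤ) : Submodule k G.A where
  carrier := {a | a ∈ I ∧ (a : K) ∈ G.M y}
  add_mem' {a b} ha hb := ⟨I.add_mem ha.1 hb.1, (G.M y).add_mem ha.2 hb.2⟩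
  zero_mem' := ⟨I.zero_mem, (G.M y).zero_mem⟩
  smul_mem' c x hx := by
    refine ⟨?_, (G.M y).smul_mem c hx.2⟩
    have : c • x = algebraMap k G.A c * x := Algebra.smul_def c x
    rw [this]
    exact I.mul_mem_left _ hx.1

/-- The degree of an ideal of `A`. -/
noncomputable def degI (I : Ideal G.A) : ℕ := Module.finrank k (G.A ⧸ I)

end Geo

end Pool.Agent.GBC
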