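import Pool.Agent.Lib.GBC.QDef

/-!
Blocks T, Lam, M: definitions. `BL m hF z` is `t ^ z B_L` in `L = K[x] / (F)`, `F = f` over `K`:
`B_L = B[θ / t ^ (2 m)]`; the coefficient of `θ ^ i` is in `t ^ (z - 2 m i) B`.
-/

set_option autoImplicit false

open Polynomial

namespace Pool.Agent.GBC

open Pool.Agent.BSDP Pool.Agent.BSDFF Pool.Agent.HYP

variable {k K : Type} [Field k] [Field K] [Algebra k K]

/-- `t ^ z B_L` -/
noncomputable def BL (G : Geo k K) (m : ℕ) {F : K[X]} (hF : F.Monic) (z : ℤ) :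
    Submodule k (AdjoinRoot F) where
  carrier := {l | ∀ i : ℕ, (AdjoinRoot.modByMonicHom hF l).coeff i ∈ G.M (z - 2 * m * i)}
  add_mem' {a b} ha hb := by
    intro i
    rw [map_add, coeff_add]
    exact (G.M _).add_mem (ha i) (hb i)
  zero_mem' := by
    intro i
    rw [map_zero, coeff_zero]
    exact (G.M _).zero_mem
  smul_mem' c x hx := by
    intro i
    have h : AdjoinRoot.modByMonicHom hF (c • x) =
        algebraMap k K c • AdjoinRoot.modByMonicHom hF x := by
      rw [← map_smul]
      congr 1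
      exact (algebraMap_smul K c x).symm
    rw [h, coeff_smul, smul_eq_mul, ← Algebra.smul_def]
    exact (G.M _).smul_mem c (hx i)

/-- The image of `A[x] / (f)` in `L`. -/
noncomputable def SA (G : Geo k K) (f : G.A[X]) : Submodule k (AdjoinRoot (G.fK f)) where
  carrier := {l | ∃ s : AdjoinRoot f, bc (algebraMap G.A K) f s = l}
  add_mem' := by
    rintro a b ⟨s, rfl⟩ ⟨s', rfl⟩
    exact ⟨s + s', map_add _ _ _⟩
  zero_mem' := ⟨0, map_zero _⟩
  smul_mem' := by
    rintro c _ ⟨s, rfl⟩
    refine ⟨AdjoinRoot.of f (algebraMap k G.A c) * s, ?_⟩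
    rw [map_mul]
    have h : bc (algebraMap G.A K) f (AdjoinRoot.of f (algebraMap k G.A c)) =
        algebraMap k (AdjoinRoot (G.fK f)) c := by
      have h1 : bc (algebraMap G.A K) f (AdjoinRoot.of f (algebraMap k G.A c)) =
          AdjoinRoot.of (G.fK f) (algebraMap G.A K (algebraMap k G.A c)) := by
        exact AdjoinRoot.map_of _ _ _ _ _
      rw [h1]
      rfl
    rw [h, ← Algebra.smul_def]

end Pool.Agent.GBC
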